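import Pool.Agent.helper35.MR.SpecA

/-!
# Project mr, module KB1
-/

set_option autoImplicit false

open Finset

namespace Pool.Agent.helper35.MR

open Pool.Agent.RRank

theorem KB1 (hCHB : CHB_stmt) (hLI : LI_stmt) (hEXT : EXT_stmt) (hOPT : OPT_stmt) (hKT : KT_stmt) :
    KB1_stmt := by
  intro K _ V a b c κ hV hK hκ hc hne n
  refine hOPT K V n (kposXY 1) (kposXY 0) (kposZ 2) ?_
  obtain ⟨l1, l2, -⟩ := hLI K n
  refine hCHB K (Option (Fin n)) _ bas bas basZ l1 l1 l2 ?_
  set t : Option (Fin n) → Option (Fin n) → Option (Fin n) → K := fun i j k =>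
    ev3 (fun i j k => V (kposXY 1 i) (kposXY 0 j) (kposZ 2 k)) (bas i) (bas j) (basZ k) with ht
  obtain ⟨T0, T1, T2, T3, T4, T5, T6, T7⟩ := hKT K V a b c κ hK n 1 0 2 (by norm_num) (by norm_num)
    (by norm_num) t (fun i j k => rfl)
  by_contra hF
  obtain ⟨s, a', b', c', hVi⟩ := hEXT K n t κ hκ T7 hF
  have hs : V 1 0 2 = a .gt + b .lt + c .lt := by
    have h := hK 1 0 2 (by norm_num) (by norm_num)
    rw [h]
    have c1 : cmp (1 : ℤ) 0 = .gt := rfl
    have c2 : cmp (0 : ℤ) 2 = .lt := rfl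
    have c3 : cmp (1 : ℤ) 2 = .lt := rfl
    rw [c1, c2, c3, if_neg (by norm_num), add_zero]
  have hb0 : ∀ i, b' i = 0 := by
    intro i
    by_cases hi : s i = 1
    · have h := hVi.E2 i i (by rw [hi]; decide) (by rw [hi]; decide)
      rw [T5, if_pos rfl, if_pos rfl, hc, sub_self, zero_add] at h
      exact (mul_eq_zero.1 h).resolve_left hκ
    · exact hVi.sb i hi
  have h1 : ∀ i, t (some i) none none = 0 := by
    intro i
    rw [T1, hs, hc]
    ring
  have h5 : ∀ i k, t (some i) none (some k) = 0 := by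
    intro i k
    rw [T5, hc, sub_self]
    split_ifs <;> rfl
  have h7 := hVi.E7
  simp only [hb0, h1, h5, T3, zero_mul, mul_zero, Finset.sum_const_zero, add_zero] at h7
  rw [T0] at h7
  exact hne h7

end Pool.Agent.helper35.MR
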